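import Pool.Agent.Helper420.PB.Fin

open MeasureTheory Filter Topology

namespace Pool.Agent.Results.MP_9074a0_an.NonResonant

/-- `sup_x |x|^m max_{t ∈ [0,T]} |h(x,t)| < ∞` for `m = 0, 1, 2` -/
def PolyBounded (T : ℝ) (h : ℝ → ℝ → ℝ) : Prop :=
  ∀ m : ℕ, m ≤ 2 → ∃ C : ℝ, ∀ x t : ℝ, 0 ≤ t → t ≤ T → |x| ^ m * |h x t| ≤ C

/-- `u` belongs to `B(T; u0)`: it is `C^2`, solves `u_tt = u_xx + u - u^3`, is `T`-periodic in `t`,
equals `u0` at `t = 0`, and `w, w_x, w_t, w_xx, w_xt` (`w = u - u0`) satisfy the decay bounds. -/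
def IsBreather (T u0 : ℝ) (u : ℝ → ℝ → ℝ) : Prop :=
  ContDiff ℝ 2 (fun p : ℝ × ℝ => u p.1 p.2) ∧
  (∀ x t, iteratedDeriv 2 (fun s => u x s) t =
    iteratedDeriv 2 (fun s => u s t) x + u x t - (u x t) ^ 3) ∧
  (∀ x t, u x (t + T) = u x t) ∧
  (∀ x, u x 0 = u0) ∧
  PolyBounded T (fun x t => u x t - u0) ∧
  PolyBounded T (fun x t => deriv (fun s => u s t) x) ∧
  PolyBounded T (fun x t => deriv (fun s => u x s) t) ∧
  PolyBounded T (fun x t => iteratedDeriv 2 (fun s => u s t) x) ∧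
  PolyBounded T (fun x t => deriv (fun s => deriv (fun r => u r s) x) t)

/-- the bounds extend to all times by periodicity -/
theorem ext_bound {T : ℝ} (hT : 0 < T) {h : ℝ → ℝ → ℝ} (hp : ∀ x t, h x (t + T) = h x t)
    (hb : PolyBounded T h) : ∃ C, 0 ≤ C ∧ ∀ x t, |h x t| ≤ C ∧ x ^ 2 * |h x t| ≤ C := by
  obtain ⟨C0, h0⟩ := hb 0 (by norm_num)
  obtain ⟨C2, h2⟩ := hb 2 le_rfl
  refine ⟨max (max C0 C2) 0, le_max_right _ _, fun x t => ?_⟩
  obtain ⟨s, hs, hst⟩ := (show Function.Periodic (h x) T from hp x).exists_mem_Ico₀ hT t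
  rw [hst]
  have e0 := h0 x s hs.1 hs.2.le
  have e2 := h2 x s hs.1 hs.2.le
  rw [pow_zero, one_mul] at e0
  rw [sq_abs] at e2
  exact ⟨e0.trans ((le_max_left _ _).trans (le_max_left _ _)),
    e2.trans ((le_max_right _ _).trans (le_max_left _ _))⟩

/-- reduction to the normalised equation -/
theorem reduce {T u0 : ℝ} (hT : 0 < T) (hu0 : u0 = 1 ∨ u0 = -1) {u : ℝ → ℝ → ℝ}
    (hu : IsBreather T u0 u) :
    Pool.Agent.Helper420.PB.Sol T (fun x t => u0 * u x t - 1) := by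
  obtain ⟨hs, he, hp, hz, hb0, hb1, -, -, -⟩ := hu
  have hsq : u0 * u0 = 1 := by rcases hu0 with h | h <;> rw [h] <;> norm_num
  have habs : |u0| = 1 := by rcases hu0 with h | h <;> rw [h] <;> norm_num
  have hcx : ∀ t, ContDiff ℝ 2 (fun s => u s t) := fun t =>
    hs.comp (contDiff_id.prodMk contDiff_const)
  have hct : ∀ x, ContDiff ℝ 2 (fun s => u x s) := fun x =>
    hs.comp (contDiff_const.prodMk contDiff_id)
  have hd : ∀ {f : ℝ → ℝ}, ContDiff ℝ 2 f → ∀ y, deriv (fun s => u0 * f s - 1) y = u0 * deriv f y := by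
    intro f hf y
    have h1 : HasDerivAt f (deriv f y) y := ((hf.differentiable (by norm_num)) y).hasDerivAt
    exact ((h1.const_mul u0).sub_const 1).deriv
  have hd2 : ∀ {f : ℝ → ℝ}, ContDiff ℝ 2 f → ∀ y,
      iteratedDeriv 2 (fun s => u0 * f s - 1) y = u0 * iteratedDeriv 2 f y := by
    intro f hf y
    have h1 : deriv (fun s => u0 * f s - 1) = fun s => u0 * deriv f s := by
      funext s; exact hd hf s
    rw [iteratedDeriv_succ, iteratedDeriv_one, iteratedDeriv_succ, iteratedDeriv_one, h1]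
    have h2 : Differentiable ℝ (deriv f) := by
      have : ContDiff ℝ (1 + 1) f := by
        have : (1 + 1 : WithTop ℕ∞) = 2 := by norm_num
        rw [this]; exact hf
      exact ((contDiff_succ_iff_deriv.mp this).2.2).differentiable (by norm_num)
    exact ((h2 y).hasDerivAt.const_mul u0).deriv
  obtain ⟨C0, hC0, hb0'⟩ := ext_bound hT (fun x t => by simp only [hp]) hb0
  obtain ⟨C1, hC1, hb1'⟩ := ext_bound hT (h := fun x t => deriv (fun s => u s t) x)
    (fun x t => by simp only [hp]) hb1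
  refine ⟨hT, ?_, ?_, ?_, ?_, ⟨max C0 C1, hC0.trans (le_max_left _ _), fun x t => ?_⟩⟩
  · exact (contDiff_const.mul hs).sub contDiff_const
  · intro x t
    simp only [hp]
  · intro x t
    rw [hd2 (hcx t), hd2 (hct x), he x t]
    have h3 : u0 ^ 2 = 1 := by rw [sq]; exact hsq
    have h4 : u0 ^ 3 = u0 := by rw [pow_succ, h3, one_mul]
    linear_combination (-(3 * (u x t) ^ 2)) * h3 - (u x t) ^ 3 * h4 + 3 * (u x t) ^ 2 * h3
  · intro x
    simp only [hz, hsq, sub_self]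
  · have e1 : |u0 * u x t - 1| = |u x t - u0| := by
      rw [show u0 * u x t - 1 = u0 * (u x t - u0) by rw [mul_sub, hsq], abs_mul, habs, one_mul]
    have e2 : |deriv (fun s => u0 * u s t - 1) x| = |deriv (fun s => u s t) x| := by
      rw [hd (hcx t), abs_mul, habs, one_mul]
    simp only [e1, e2]
    exact ⟨(hb0' x t).1.trans (le_max_left _ _), (hb0' x t).2.trans (le_max_left _ _),
      (hb1' x t).1.trans (le_max_right _ _), (hb1' x t).2.trans (le_max_right _ _)⟩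

theorem result (T : ℝ) (hT : 0 < T)
    (hres : ∀ j k : ℕ, 1 ≤ k → j ≤ k →
      3 * T ^ 2 ≠ 2 * Real.pi ^ 2 * (4 * (k : ℝ) ^ 2 - (j : ℝ) ^ 2))
    (u0 : ℝ) (hu0 : u0 = 1 ∨ u0 = -1) (u : ℝ → ℝ → ℝ) (hu : IsBreather T u0 u) :
    ∀ x t, u x t = u0 := by
  have hsol := reduce hT hu0 hu
  have hsq : u0 * u0 = 1 := by rcases hu0 with h | h <;> rw [h] <;> norm_num
  have hkap : ∀ n : ℤ, Pool.Agent.Helper420.PB.kap T n * T ^ 2 =
      2 * T ^ 2 - 4 * Real.pi ^ 2 * (n : ℝ) ^ 2 := by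
    intro n
    unfold Pool.Agent.Helper420.PB.kap
    field_simp
    ring
  have hnat : ∀ n : ℤ, ((n.natAbs : ℕ) : ℝ) ^ 2 = (n : ℝ) ^ 2 := by
    intro n
    rw [Nat.cast_natAbs, Int.cast_abs, sq_abs]
  have hk : ∀ n, Pool.Agent.Helper420.PB.kap T n ≠ 0 := by
    intro n h0
    have h1 := hkap n
    rw [h0, zero_mul] at h1
    have hn : n ≠ 0 := by
      rintro rfl
      push_cast at h1
      nlinarith
    refine hres n.natAbs n.natAbs (Int.natAbs_pos.mpr hn) le_rfl ?_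
    rw [hnat]
    linarith
  have hr : ∀ k n : ℤ, 0 < Pool.Agent.Helper420.PB.kap T k → 0 < Pool.Agent.Helper420.PB.kap T n →
      4 * Pool.Agent.Helper420.PB.kap T k ≠ Pool.Agent.Helper420.PB.kap T n := by
    intro k n hk0 hn0 heq
    have h1 := hkap k
    have h2 := hkap n
    have hT2 : 0 < T ^ 2 := by positivity
    have hk : k ≠ 0 := by
      rintro rfl
      have : Pool.Agent.Helper420.PB.kap T 0 = 2 := by
        unfold Pool.Agent.Helper420.PB.kap; simp
      rw [this] at heq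
      have h3 : Pool.Agent.Helper420.PB.kap T n ≤ 2 := by
        unfold Pool.Agent.Helper420.PB.kap
        nlinarith [sq_nonneg (2 * Real.pi * (n : ℝ) / T)]
      linarith
    have hlt : (n : ℝ) ^ 2 < (k : ℝ) ^ 2 := by
      have h3 : Pool.Agent.Helper420.PB.kap T k * T ^ 2 < Pool.Agent.Helper420.PB.kap T n * T ^ 2 := by
        apply mul_lt_mul_of_pos_right _ hT2
        linarith
      rw [h1, h2] at h3
      have : 0 < 4 * Real.pi ^ 2 := by positivity
      nlinarith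
    have hle : n.natAbs ≤ k.natAbs := by
      have : ((n.natAbs : ℕ) : ℝ) ^ 2 < ((k.natAbs : ℕ) : ℝ) ^ 2 := by rw [hnat, hnat]; exact hlt
      have h5 : (n.natAbs) ^ 2 < (k.natAbs) ^ 2 := by exact_mod_cast this
      exact (lt_of_pow_lt_pow_left₀ 2 (Nat.zero_le _) h5).le
    refine hres n.natAbs k.natAbs (Int.natAbs_pos.mpr hk) hle ?_
    rw [hnat, hnat]
    rw [← heq] at h2
    linarith
  obtain ⟨x1, hx1⟩ := Pool.Agent.Helper420.PB.main hsol hk hr
  obtain ⟨C, -, hC⟩ := hsol.dec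
  have huc := Pool.Agent.Helper420.PB.unique_cont hsol.pos hsol.smooth hsol.per hsol.eqn
    (fun x t => (hC x t).1) hx1
  intro x t
  have h1 : u0 * u x t - 1 = 0 := huc x t
  have h2 : u0 * (u0 * u x t - 1) = 0 := by rw [h1, mul_zero]
  rw [mul_sub, ← mul_assoc, hsq, one_mul, mul_one] at h2
  linarith

end Pool.Agent.Results.MP_9074a0_an.NonResonant
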